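import Pool.Agent.HL54.Main

set_option autoImplicit false

open FirstOrder Cardinal Ordinal

universe u

namespace Pool.Agent.Results.MP_e4715a_lc.HanfLower

open Pool.Agent.HL54

/-- Let `κ` be infinite and let `Reach κ` be the least class of cardinals which contains every
infinite cardinal `≤ 2 ^ κ` and is closed under `μ ↦ μ⁺`, `μ ↦ 2 ^ μ` and suprema of at most
`2 ^ κ` members. For every `μ` in this class there is an abstract elementary class `K` with
`|L(K)| ≤ κ` and `LS(K) ≤ κ` which has the amalgamation property in `μ`, but not in `μ⁺`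
(and exactly in the cardinals `≤ μ`), and which has members of every cardinality. The class
contains every infinite cardinal below `ℵ_(θ + (2 ^ κ)⁺)`, `2 ^ κ = ℵ_θ`, and all `ℶ_α` with
`α < (2 ^ κ)⁺`. -/
theorem result (κ : Cardinal.{u}) (hκ : ℵ₀ ≤ κ) :
    (∀ μ : Cardinal.{u}, Reach κ μ →
      ∃ (L : FirstOrder.Language.{u, u}) (K : AEC L), L.card ≤ κ ∧ K.LS ≤ κ ∧
        K.AP μ ∧ ¬ K.AP (Order.succ μ) ∧ (∀ θ : Cardinal.{u}, K.AP θ ↔ θ ≤ μ) ∧
        ∀ θ : Cardinal.{u}, ∃ (M : Type u) (_ : L.Structure M), K.mem M ∧ #M = θ) ∧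
    (∀ (θ : Ordinal.{u}) (μ : Cardinal.{u}), ℵ_ θ = 2 ^ κ → ℵ₀ ≤ μ →
      μ < ℵ_ (θ + (Order.succ (2 ^ κ : Cardinal.{u})).ord) → Reach κ μ) ∧
    (∀ α : Ordinal.{u}, α < (Order.succ (2 ^ κ : Cardinal.{u})).ord → Reach κ (ℶ_ α)) :=
  ⟨fun _ h => exists_aec hκ h, fun _ _ hθ h0 hμ => Reach.of_lt_aleph hκ hθ h0 hμ,
    fun _ hα => Reach.beth hκ hα⟩

end Pool.Agent.Results.MP_e4715a_lc.HanfLower
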