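import Pool.Agent.HE54.Main

set_option autoImplicit false

open FirstOrder Cardinal

universe u

namespace Pool.Agent.Results.MP_e4715a_lc.UnboundedSpans

open Pool.Agent.HL54 Pool.Agent.HE54

/-- For every infinite `κ` there is a cardinal `μ₀` such that every abstract elementary class
`K` with `|L(K)| ≤ κ` and `LS(K) ≤ κ` which has `μ`-AP for some `μ ≥ μ₀` amalgamates all its
spans, of any size, which have arbitrarily large extensions. -/
theorem result (κ : Cardinal.{u}) (hκ : ℵ₀ ≤ κ) :
    ∃ μ₀ : Cardinal.{u}, ∀ μ : Cardinal.{u}, μ₀ ≤ μ →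
      ∀ (L : FirstOrder.Language.{u, u}) (K : AEC L), L.card ≤ κ → K.LS ≤ κ → K.AP μ →
        ∀ s : Span K, s.Unbounded → s.Amalg :=
  exists_threshold κ hκ

end Pool.Agent.Results.MP_e4715a_lc.UnboundedSpans
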